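import Mathlib
import Pool.Agent.H197.GS.Final

/-!
# Correction of densities on hypersurfaces: curvature almost everywhere is the exact condition

Let `γ : ℝ^d → ℝ` be smooth, `U ⊆ ℝ^d` open and bounded, and let `(E h)(ξ) = ∫_U e^{-i (y, γ(y)) · ξ} h(y) dy` be the
extension operator of the graph of `γ` over `U` (for `γ(y) = |y|²` the one of the paraboloid).

**Theorem.** (1) Suppose that the gradient of `γ` expands distances on `U`, `|∇γ(y) - ∇γ(y')| ≥ c |y - y'|`; for the paraboloid this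
holds with `c = 2`. There is `C` such that for every family of measurable densities bounded by `M` which is totally bounded in the sup
norm, and every `0 < ε ≤ 1`, there is ONE exceptional set `Z` of measure at most `ε` such that every density of the family agrees on
`U \ Z` with some `h ∈ C_c(U)` with `|h| ≤ C M / ε`, `|E h(ξ)| ≤ (C M / ε) √log (2 + |ξ|) (1 + |ξ|)^(-d/2)` for all `ξ`, hence `E h` is
in `L^p(ℝ^(d+1))` for all `p > 2 (d+1)/d`, and with arbitrarily small norms in `L^r`, `p₀ ≤ r ≤ ∞`.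
(2) The same holds with a constant `C = C(ε)` if only the Hessian of `γ` (i.e. the Gaussian curvature of the graph) is nonzero almost
everywhere in `U`.
(3) The condition in (2) is necessary, already for the constant density: the following are equivalent: the Hessian is regular almost
everywhere in `U`; for every sequence of measurable densities and every `ε > 0` there is a set `Z` of measure at most `ε` such
that every linear combination of the sequence can be corrected on `Z`; the constant density can be corrected on sets of arbitrarily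
small measure.

Method. Random multipliers on a lattice partition of unity of a fine scale `N`; the square function of the cells is at most
`C (N + |ξ|)^(-d/2)` (almost disjointness of the dual plates, since the gradient separates the cells), with a subdivision of the cells
for `|t| > N²`; exponential moments; and an iteration. Necessity: anisotropic packets at a flat point.
-/

set_option autoImplicit false

open MeasureTheory Set Metric Complex Filter Topology
open scoped ENNReal NNReal RealInnerProductSpace ContDiff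

namespace Pool.Agent.Results.MP_5ab805_an.CorrectionAndCurvature

/-- Euclidean space -/
abbrev E (n : ℕ) := EuclideanSpace ℝ (Fin n)

/-- The point `(y, γ(y))` of the graph of `γ`. -/
noncomputable def point {d : ℕ} (γ : E d → ℝ) (y : E d) : E (d + 1) :=
  WithLp.toLp 2 (Fin.snoc (α := fun _ => ℝ) (fun i => y i) (γ y))

/-- The extension operator of the graph of `γ` over `U`. -/
noncomputable def ext {d : ℕ} (γ : E d → ℝ) (U : Set (E d)) (h : E d → ℂ) (ξ : E (d + 1)) : ℂ :=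
  ∫ y in U, Complex.exp (-((⟪point γ y, ξ⟫ : ℝ) : ℂ) * I) * h y

/-- The decay `√log (2 + |ξ|) (1 + |ξ|)^(-d/2)`. -/
noncomputable def decay (d : ℕ) (ξ : E (d + 1)) : ℝ :=
  √(Real.log (2 + ‖ξ‖)) * (1 + ‖ξ‖) ^ (-((d : ℝ) / 2))

/-- The gradient of `γ` expands distances in `U` at least by the factor `c`. -/
def Expands {d : ℕ} (γ : E d → ℝ) (U : Set (E d)) (c : ℝ) : Prop :=
  ∀ y ∈ U, ∀ y' ∈ U, c * ‖y - y'‖ ≤ ‖gradient γ y - gradient γ y'‖

/-- The Hessian of `γ` is singular at `y`. -/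
def Flat {d : ℕ} (γ : E d → ℝ) (y : E d) : Prop := ∃ e : E d, e ≠ 0 ∧ fderiv ℝ (gradient γ) y e = 0

/-- The family `g` is totally bounded in the sup norm on `U`. -/
def TotallyBdd {d : ℕ} {ι : Type} (g : ι → E d → ℂ) (U : Set (E d)) : Prop :=
  ∀ δ : ℝ, 0 < δ → ∃ s : Finset ι, ∀ i, ∃ j ∈ s, ∀ y ∈ U, ‖g i y - g j y‖ ≤ δ

/-- `h` is a continuous density with compact support in `U` which agrees with `f` on `U \ Z`, is bounded by `A`, and whose
extension is bounded by `A √log (2 + |ξ|) (1 + |ξ|)^(-d/2)` and is in `L^p` for all `p > 2 (d+1)/d`. -/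
def Corrects {d : ℕ} (γ : E d → ℝ) (U Z : Set (E d)) (f : E d → ℂ) (A : ℝ) (h : E d → ℂ) : Prop :=
  Continuous h ∧ HasCompactSupport h ∧ tsupport h ⊆ U ∧ (∀ y ∈ U, y ∉ Z → h y = f y) ∧
    (∀ y, ‖h y‖ ≤ A) ∧ (∀ ξ, ‖ext γ U h ξ‖ ≤ A * decay d ξ) ∧
    ∀ p : ℝ, 2 * ((d : ℝ) + 1) / d < p → MemLp (ext γ U h) (ENNReal.ofReal p) volume

theorem decay_eq (d : ℕ) (ξ : E (d + 1)) : Pool.Agent.H197.PD.dec (d + 1) ξ = decay d ξ := by
  unfold Pool.Agent.H197.PD.dec decay
  congr 2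
  push_cast
  ring

theorem inner_eq {d : ℕ} (γ : E d → ℝ) (y : E d) (ξ : E (d + 1)) :
    (⟪point γ y, ξ⟫ : ℝ) =
      ⟪Pool.Agent.H197.GS.fx ξ, y⟫ + Pool.Agent.H197.GS.fl ξ * γ y := by
  unfold point Pool.Agent.H197.GS.fx Pool.Agent.H197.GS.fl
  rw [PiLp.inner_apply, PiLp.inner_apply, Fin.sum_univ_castSucc]
  congr 1
  · refine Finset.sum_congr rfl fun i _ => ?_
    simp [mul_comm]
  · simp

theorem ext_eq {d : ℕ} (γ : E d → ℝ) {U : Set (E d)} {h : E d → ℂ} (hs : tsupport h ⊆ U)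
    (ξ : E (d + 1)) : Pool.Agent.H197.GS.ex γ h ξ = ext γ U h ξ := by
  unfold Pool.Agent.H197.GS.ex ext
  rw [← setIntegral_eq_integral_of_forall_compl_eq_zero (s := U)]
  · refine integral_congr_ae (Eventually.of_forall fun y => ?_)
    simp only
    unfold Pool.Agent.H197.GS.ek
    rw [inner_eq, mul_comm]
  · intro y hy
    have : h y = 0 := by
      by_contra h0
      exact hy (hs (subset_tsupport h h0))
    rw [this, zero_mul]

theorem dec_nonneg (d : ℕ) (ξ : E (d + 1)) : 0 ≤ decay d ξ := by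
  unfold decay
  positivity

/-- the paraboloid -/
theorem paraboloid {d : ℕ} (U : Set (E d)) : Expands (fun y : E d => ‖y‖ ^ 2) U 2 := by
  have h : ∀ y : E d, gradient (fun y : E d => ‖y‖ ^ 2) y = (2 : ℝ) • y := by
    intro y
    apply HasGradientAt.gradient
    rw [hasGradientAt_iff_hasFDerivAt]
    have h1 : (InnerProductSpace.toDual ℝ (E d)) ((2 : ℝ) • y) = 2 • (innerSL ℝ) y := by
      ext z
      simp
    rw [h1]
    exact (hasStrictFDerivAt_norm_sq y).hasFDerivAt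
  intro y _ y' _
  rw [h, h, ← smul_sub, norm_smul]
  simp

/-- **Theorem.** See the header. -/
theorem result (d : ℕ) (hd : 1 ≤ d) (γ : E d → ℝ) (hγ : ContDiff ℝ ∞ γ) (U : Set (E d))
    (hU : IsOpen U) (hb : Bornology.IsBounded U) :
    (∀ V : Set (E d), Expands (fun y : E d => ‖y‖ ^ 2) V 2) ∧
    (∀ c : ℝ, 0 < c → Expands γ U c → ∃ C : ℝ, 0 < C ∧
      ∀ (ι : Type) (g : ι → E d → ℂ) (M ε : ℝ), (∀ i, Measurable (g i)) → 0 < M →
        (∀ i, ∀ y ∈ U, ‖g i y‖ ≤ M) → TotallyBdd g U → 0 < ε → ε ≤ 1 →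
        ∀ p₀ η : ℝ, 2 * ((d : ℝ) + 1) / d < p₀ → 0 < η →
        ∃ Z : Set (E d), MeasurableSet Z ∧ volume Z ≤ ENNReal.ofReal ε ∧ ∀ i, ∃ h : E d → ℂ,
          Corrects γ U Z (g i) (C * M / ε) h ∧
          ∀ r : ℝ≥0∞, ENNReal.ofReal p₀ ≤ r → eLpNorm (ext γ U h) r volume ≤ ENNReal.ofReal η) ∧
    (volume {y | y ∈ U ∧ Flat γ y} = 0 → ∀ ε : ℝ, 0 < ε → ε ≤ 1 → ∃ C : ℝ, 0 < C ∧
      ∀ (ι : Type) (g : ι → E d → ℂ) (M : ℝ), (∀ i, Measurable (g i)) → 0 < M →
        (∀ i, ∀ y ∈ U, ‖g i y‖ ≤ M) → TotallyBdd g U →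
        ∀ p₀ η : ℝ, 2 * ((d : ℝ) + 1) / d < p₀ → 0 < η →
        ∃ Z : Set (E d), MeasurableSet Z ∧ volume Z ≤ ENNReal.ofReal ε ∧ ∀ i, ∃ h : E d → ℂ,
          Corrects γ U Z (g i) (C * M) h ∧
          ∀ r : ℝ≥0∞, ENNReal.ofReal p₀ ≤ r → eLpNorm (ext γ U h) r volume ≤ ENNReal.ofReal η) ∧
    List.TFAE [
      volume {y | y ∈ U ∧ Flat γ y} = 0,
      ∀ g : ℕ → E d → ℂ, (∀ i, Measurable (g i)) → ∀ ε : ℝ, 0 < ε → ∃ Z : Set (E d),
        volume Z ≤ ENNReal.ofReal ε ∧ ∀ f ∈ Submodule.span ℂ (Set.range g),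
          ∃ (A : ℝ) (h : E d → ℂ), Corrects γ U Z f A h,
      ∀ ε : ℝ, 0 < ε → ∃ Z : Set (E d), volume Z ≤ ENNReal.ofReal ε ∧
        ∃ (A : ℝ) (h : E d → ℂ), Corrects γ U Z (fun _ => 1) A h] := by
  refine ⟨fun V => paraboloid V, ?_, ?_, ?_⟩
  · intro c hc hex
    obtain ⟨C, hC, H⟩ := Pool.Agent.H197.GS.final_UNQ d γ hd hγ U hU hb c hc hex
    refine ⟨C, hC, ?_⟩
    intro ι g M ε hg hM hgb htb hε hε1 p₀ η hp hη
    obtain ⟨Z, hZ, hZε, HZ⟩ := H ι g hg M hM hgb htb ε hε hε1 p₀ hp η hη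
    refine ⟨Z, hZ, hZε, fun i => ?_⟩
    obtain ⟨h, h1, h2, h3, h4, h5, h6, h7, h8⟩ := HZ i
    have he : Pool.Agent.H197.GS.ex γ h = ext γ U h := funext fun ξ => ext_eq γ h3 ξ
    rw [he] at h7 h8
    refine ⟨h, ⟨h1, h2, h3, h5, h4, fun ξ => ?_, h7⟩, h8⟩
    rw [← he, ← decay_eq]
    exact h6 ξ
  · intro hf ε hε hε1
    obtain ⟨C, hC, H⟩ := Pool.Agent.H197.GS.final_GNQ d γ hd hγ U hU hb hf ε hε hε1
    refine ⟨C, hC, ?_⟩
    intro ι g M hg hM hgb htb p₀ η hp hη
    obtain ⟨Z, hZ, hZε, HZ⟩ := H ι g hg M hM hgb htb p₀ hp η hη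
    refine ⟨Z, hZ, hZε, fun i => ?_⟩
    obtain ⟨h, h1, h2, h3, h4, h5, h6, h7, h8⟩ := HZ i
    have he : Pool.Agent.H197.GS.ex γ h = ext γ U h := funext fun ξ => ext_eq γ h3 ξ
    rw [he] at h7 h8
    refine ⟨h, ⟨h1, h2, h3, h5, h4, fun ξ => ?_, h7⟩, h8⟩
    rw [← he, ← decay_eq]
    exact h6 ξ
  · tfae_have 1 → 2 := by
      intro hf g hg ε hε
      obtain ⟨Z, hZ, hZε, H⟩ := Pool.Agent.H197.GS.final_SEQ d γ hd hγ U hU hb hf g hg ε hε
      refine ⟨Z, hZε, fun f hf' => ?_⟩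
      obtain ⟨h, h1, h2, h3, h4, ⟨A, h5⟩, h6⟩ := H f hf'
      obtain ⟨B, hB⟩ := h1.bounded_above_of_compact_support h2
      have he : Pool.Agent.H197.GS.ex γ h = ext γ U h := funext fun ξ => ext_eq γ h3 ξ
      rw [he] at h6
      refine ⟨max A B, h, h1, h2, h3, h4, fun y => (hB y).trans (le_max_right _ _), fun ξ => ?_, h6⟩
      have h7 := h5 ξ
      rw [he, decay_eq] at h7
      exact h7.trans (mul_le_mul_of_nonneg_right (le_max_left _ _) (dec_nonneg d ξ))
    tfae_have 2 → 3 := by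
      intro H ε hε
      obtain ⟨Z, hZε, HZ⟩ := H (fun _ _ => 1) (fun _ => measurable_const) ε hε
      exact ⟨Z, hZε, HZ _ (Submodule.subset_span ⟨0, rfl⟩)⟩
    tfae_have 3 → 1 := by
      intro H
      refine Pool.Agent.H197.GS.final_FLT d γ hd hγ U hU hb fun ε hε => ?_
      obtain ⟨Z, hZε, A, h, h1, h2, h3, h4, h5, h6, h7⟩ := H ε hε
      have he : Pool.Agent.H197.GS.ex γ h = ext γ U h := funext fun ξ => ext_eq γ h3 ξ
      refine ⟨Z, hZε, h, h1, h2, h3, h4, ⟨A, fun ξ => ?_⟩, ?_⟩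
      · rw [he, decay_eq]
        exact h6 ξ
      · rw [he]
        exact h7
    tfae_finish

end Pool.Agent.Results.MP_5ab805_an.CorrectionAndCurvature
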