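import Pool.Agent.H309.RE.FinDim
set_option autoImplicit false

/-! # Rearrangements and the Fourier extension operator of the paraboloid

Every compact set of functions in `L³` of a square satisfies all the bounds of the Fourier
extension conjecture, with constants which do not depend on the compact set, after composition with
one measure preserving bijection `T` of the square, as close to the identity as we like. The same
`T` can serve for a sequence of compact sets (or finite dimensional spaces), at the price of a factor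
`A k` which tends to infinity as slowly as we like; with a bounded factor, for one `T` and a dense
set of functions, the conjectured bound would follow for all functions. -/

namespace Pool.Agent.Results.MP_5ab805_an.Rearrangement

open MeasureTheory Set Filter Complex
open scoped ENNReal NNReal Topology

/-- The Fourier extension operator of the paraboloid in `ℝ³`, in the normalization of the problem
(functions on `U` are extended by zero). -/
noncomputable def E (f : ℝ × ℝ → ℂ) (ξ : (ℝ × ℝ) × ℝ) : ℂ :=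
  ∫ x : ℝ × ℝ, cexp (-(I * ((x.1 * ξ.1.1 + x.2 * ξ.1.2 + (x.1 ^ 2 + x.2 ^ 2) * ξ.2 : ℝ) : ℂ))) * f x

/-- The square with the lower left corner `(a, b)` and the side `l`. -/
def Q (a b l : ℝ) : Set (ℝ × ℝ) := Ico a (a + l) ×ˢ Ico b (b + l)

/-- The square lies in `[-1/2, 1/2]²`. -/
def Inside (a b l : ℝ) : Prop :=
  -(1 / 2) ≤ a ∧ a + l ≤ 1 / 2 ∧ -(1 / 2) ≤ b ∧ b + l ≤ 1 / 2 ∧ 0 < l

/-- Lebesgue measure on the square. -/
noncomputable def μ (a b l : ℝ) : Measure (ℝ × ℝ) := volume.restrict (Q a b l)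

/-- The norm in `L³` of the square. -/
noncomputable def N3 (a b l : ℝ) (f : ℝ × ℝ → ℂ) : ℝ≥0∞ := eLpNorm f 3 (μ a b l)

/-- The set of functions `K` is totally bounded in `L³` of the square. -/
def TB (a b l : ℝ) (K : Set (ℝ × ℝ → ℂ)) : Prop :=
  (∀ f ∈ K, MemLp f 3 (μ a b l)) ∧
  ∀ η : ℝ, 0 < η → ∃ t : Finset (ℝ × ℝ → ℂ), (∀ g ∈ t, MemLp g 3 (μ a b l)) ∧
    ∀ f ∈ K, ∃ g ∈ t, N3 a b l (fun x => f x - g x) ≤ ENNReal.ofReal η

/-- `T` is a measure preserving bijection of the square, up to null sets: it preserves Lebesgue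
measure on the square and so does some `S` with `S ∘ T = id = T ∘ S` almost everywhere. -/
def Rearr (a b l : ℝ) (T : ℝ × ℝ → ℝ × ℝ) : Prop :=
  MeasurePreserving T (μ a b l) (μ a b l) ∧
    ∃ S : ℝ × ℝ → ℝ × ℝ, MeasurePreserving S (μ a b l) (μ a b l) ∧
      (∀ᵐ x ∂(μ a b l), S (T x) = x) ∧ ∀ᵐ x ∂(μ a b l), T (S x) = x

/-- `T` is a rearrangement of the square and moves no point by more than `δ`. -/
def Near (a b l δ : ℝ) (T : ℝ × ℝ → ℝ × ℝ) : Prop :=
  Rearr a b l T ∧ ∀ x ∈ Q a b l, ‖T x - x‖ ≤ δ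

/-- The norm in `L^q(ℝ³)` of the extension of `f ∘ T` (restricted to the square). -/
noncomputable def EN (a b l : ℝ) (q : ℝ≥0∞) (T : ℝ × ℝ → ℝ × ℝ) (f : ℝ × ℝ → ℂ) : ℝ≥0∞ :=
  eLpNorm (E ((Q a b l).indicator (fun x => f (T x)))) q volume

/-- The exponents: every `q > 3`, and `κ` in `(0, 1]` with `κ > 6 / q - 3 / 2`. -/
def Adm (q κ : ℝ) : Prop := 3 < q ∧ 0 < κ ∧ κ ≤ 1 ∧ 6 / q - 3 / 2 < κ

/-- Numbers `≥ 1` tending to infinity. -/
def Slow (A : ℕ → ℝ) : Prop := (∀ k, 1 ≤ A k) ∧ Tendsto A atTop atTop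

/-- The factor in the bounds. -/
noncomputable def factor (C : ℝ → ℝ → ℝ≥0) (q κ y : ℝ) : ℝ≥0∞ := C q κ * ENNReal.ofReal (y ^ κ)

/-- For totally bounded sets `K k` in `L³` of the square there is one rearrangement `T` for which
all the bounds hold for the functions `f ∘ T` with `f ∈ K k`, up to the factor `A k ^ κ`. -/
def Compacts (C : ℝ → ℝ → ℝ≥0) (a b l : ℝ) : Prop :=
  ∀ K : ℕ → Set (ℝ × ℝ → ℂ), (∀ k, TB a b l (K k)) →
    ∀ A ε : ℕ → ℝ, Slow A → (∀ k, 0 < ε k) → ∀ δ : ℝ, 0 < δ → δ ≤ l →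
    ∃ T, Near a b l δ T ∧ ∀ q κ : ℝ, Adm q κ → ∀ k, ∀ f ∈ K k,
      EN a b l (ENNReal.ofReal q) T f ≤
        factor C q κ (l / δ * A k) * (N3 a b l f + ENNReal.ofReal (ε k))

/-- For a sequence of functions `w i` in `L³` of the square there is one rearrangement `T` for which
all the bounds hold for the functions `f ∘ T`, where `f` is in the span of `w 0, …, w (k - 1)`, up to
the factor `A k ^ κ`. -/
def Spans (C : ℝ → ℝ → ℝ≥0) (a b l : ℝ) : Prop :=
  ∀ w : ℕ → ℝ × ℝ → ℂ, (∀ i, MemLp (w i) 3 (μ a b l)) →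
    ∀ A : ℕ → ℝ, Slow A → ∀ δ : ℝ, 0 < δ → δ ≤ l →
    ∃ T, Near a b l δ T ∧ ∀ q κ : ℝ, Adm q κ → ∀ (k : ℕ) (c : ℕ → ℂ),
      EN a b l (ENNReal.ofReal q) T (fun x => ∑ i ∈ Finset.range k, c i * w i x) ≤
        factor C q κ (l / δ * A k) * N3 a b l (fun x => ∑ i ∈ Finset.range k, c i * w i x)

/-- `V` is a dense set of functions in `L³` of the square. -/
def DenseSet (a b l : ℝ) (V : Set (ℝ × ℝ → ℂ)) : Prop :=
  (∀ f ∈ V, MemLp f 3 (μ a b l)) ∧ ∀ g, MemLp g 3 (μ a b l) → ∀ η : ℝ, 0 < η →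
    ∃ f ∈ V, N3 a b l (fun x => f x - g x) ≤ ENNReal.ofReal η

/-- A bounded factor, for one rearrangement and a dense set of functions, gives the bound for all
functions in `L³` of the square. -/
def Converse (a b l : ℝ) : Prop :=
  ∀ T, Rearr a b l T → ∀ V, DenseSet a b l V → ∀ (q : ℝ≥0∞) (c : ℝ≥0),
    (∀ f ∈ V, EN a b l q T f ≤ c * N3 a b l f) →
    ∀ g : ℝ × ℝ → ℂ, MemLp g 3 (μ a b l) → EN a b l q id g ≤ c * N3 a b l g

theorem result : ∃ C : ℝ → ℝ → ℝ≥0, ∀ a b l : ℝ, Inside a b l →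
    Compacts C a b l ∧ Spans C a b l ∧ Converse a b l := by
  classical
  -- the constants
  have hex : ∀ q κ : ℝ, ∃ C : ℝ≥0, 3 < q → 0 < κ → 6 / q - 3 / 2 < κ →
      ∀ (r : ℕ → ℕ) (c s : ℕ → ℝ) (h : ℕ → ℝ × ℝ → ℂ) (f : ℝ × ℝ → ℂ),
      (∀ k, 1 ≤ r k) → (∀ k, c k ^ 2 + s k ^ 2 = 1) →
      (∀ k, LowRank.RankLE (r k) (c k) (s k) (h k)) → (∀ᵐ x, f x = ∑' k, h k x) →
      eLpNorm (LowRank.ext f) (ENNReal.ofReal q) volume ≤
        C * ∑' k, ENNReal.ofReal ((r k : ℝ) ^ κ) * eLpNorm (h k) 3 volume := by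
    intro q κ
    by_cases h : 3 < q ∧ 0 < κ ∧ 6 / q - 3 / 2 < κ
    · obtain ⟨C, hC⟩ := LowRank.result q κ h.1 h.2.1 h.2.2
      exact ⟨C, fun _ _ _ => hC⟩
    · refine ⟨0, fun h1 h2 h3 => absurd ⟨h1, h2, h3⟩ h⟩
  choose C hC using hex
  -- compact sets
  have key : ∀ a b l : ℝ, Inside a b l →
      ∀ K : ℕ → Set (ℝ × ℝ → ℂ), (∀ k, TB a b l (K k)) →
      ∀ A ε : ℕ → ℝ, Slow A → (∀ k, 0 < ε k) → ∀ δ : ℝ, 0 < δ → δ ≤ l →
      ∃ T, Near a b l δ T ∧
        ∀ q κ : ℝ, Adm q κ → ∀ k, ∀ f ∈ K k,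
          EN a b l (ENNReal.ofReal q) T f ≤ 2 * C q κ * ENNReal.ofReal ((l / δ * A k) ^ κ) *
            (N3 a b l f + ENNReal.ofReal (ε k)) := by
    rintro a b l ⟨ha, ha', hb, hb', hl⟩ K hK A ε hA hε δ hδ hδl
    obtain ⟨e, he1, he2⟩ :=
      Pool.Agent.H309.RE.rearrange ha ha' hb hb' hl hδ hδl K hK A ε hA.1 hA.2 hε
    refine ⟨Pool.Agent.H309.RE.T a b l e, ⟨⟨Pool.Agent.H309.RE.T_mp hl e,
      Pool.Agent.H309.RE.T a b l e.symm, Pool.Agent.H309.RE.T_mp hl e.symm,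
      Pool.Agent.H309.RE.ae_T_T hl e, Pool.Agent.H309.RE.ae_T_T hl e.symm⟩, he1⟩, ?_⟩
    rintro q κ ⟨hq, hκ, hκ1, hqκ⟩ k f hf
    have h1 := he2 q κ hκ hκ1 (C q κ) (hC q κ hq hκ hqκ) k f hf
    have h2 : 0 ≤ l / δ * A k := mul_nonneg (div_pos hl hδ).le (by linarith [hA.1 k])
    have h3 := Pool.Agent.H309.RE.rpow_bound hκ1 h2
    refine h1.trans ?_
    rw [mul_assoc 2 (l / δ) (A k)]
    calc _ ≤ C q κ * (2 * ENNReal.ofReal ((l / δ * A k) ^ κ) *
          (N3 a b l f + ENNReal.ofReal (ε k))) := by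
          gcongr
          exact le_rfl
      _ = _ := by ring
  refine ⟨fun q κ => 4 * C q κ, ?_⟩
  intro a b l hin
  have hl : 0 < l := hin.2.2.2.2
  have hl1 : l ≤ 1 := by linarith [hin.1, hin.2.1]
  refine ⟨?_, ?_, ?_⟩
  · intro K hK A ε hA hε δ hδ hδl
    obtain ⟨T, hT1, hT3⟩ := key a b l hin K hK A ε hA hε δ hδ hδl
    refine ⟨T, hT1, ?_⟩
    intro q κ hqκ k f hf
    refine (hT3 q κ hqκ k f hf).trans ?_
    have h4 : (2 : ℝ≥0∞) * (C q κ : ℝ≥0∞) ≤ ((4 * C q κ : ℝ≥0) : ℝ≥0∞) := by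
      push_cast
      gcongr
      norm_num
    unfold factor
    gcongr
  · intro w hw A hA δ hδ hδl
    obtain ⟨T, hT1, hT3⟩ := key a b l hin _ (fun k => Pool.Agent.H309.RE.tb_span hw k)
      A (fun _ => 1) hA (fun _ => one_pos) δ hδ hδl
    refine ⟨T, hT1, ?_⟩
    intro q κ hqκ k c
    have h0 : MemLp (fun x => ∑ i ∈ Finset.range k, c i * w i x) 3 (μ a b l) :=
      memLp_finsetSum _ fun i _ => (hw i).const_mul (c i)
    have h2 := Pool.Agent.H309.RE.homog (a := a) (b := b) (l := l) hT1.1.1 (ENNReal.ofReal q)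
      (2 * C q κ * ENNReal.ofReal ((l / δ * A k) ^ κ)) h0 (fun t ht => by
        have h1 := hT3 q κ hqκ k (fun x => t * ∑ i ∈ Finset.range k, c i * w i x)
          ⟨⟨fun i => t * c i, by
            funext x
            rw [Finset.mul_sum]
            exact Finset.sum_congr rfl fun i _ => by ring⟩, ht⟩
        rw [ENNReal.ofReal_one] at h1
        exact h1)
    have h3 : EN a b l (ENNReal.ofReal q) T (fun x => ∑ i ∈ Finset.range k, c i * w i x) ≤
      2 * (2 * C q κ * ENNReal.ofReal ((l / δ * A k) ^ κ)) *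
        N3 a b l (fun x => ∑ i ∈ Finset.range k, c i * w i x) := h2
    refine h3.trans (le_of_eq ?_)
    unfold factor
    push_cast
    ring
  · intro T hT V hV q c h g hg
    obtain ⟨S, hS, hST, -⟩ := hT.2
    exact Pool.Agent.H309.RE.sharp hl hl1 hT.1 hS hST V hV.1 hV.2 q c h g hg

end Pool.Agent.Results.MP_5ab805_an.Rearrangement
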