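import Pool.Agent.H222.ER.Br3

/-!
# The extension conjecture for the paraboloid in `ℝ³` is a statement about small polynomial phases

`ext U f ξ = ∫_U e^{-i Φ(x)·ξ} f(x) dx`, `Φ(x) = (x_1, x_2, x_1² + x_2²)`, where `U ⊆ B(0, 1/2)` is
measurable with nonempty interior. Fix `c > 0`, as small as one likes. The test functions are the
functions `e^{iP}` with a real polynomial `P` of degree at most `D` such that `|P| ≤ c` on `U`; they
are observed on the ball of radius `D` only.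

* For every `q ≥ 1` the growth exponent, in `R`, of the norms `‖ext U f‖_{L^q(B_R)}^q` over all
  functions with `|f| ≤ 1` is equal to the growth exponent, in `D`, of the norms
  `‖ext U e^{iP}‖_{L^q(B_D)}^q` over these polynomials.
* Q1 (the inequality `‖ext U f‖_q ≤ C_q ‖f‖_{L^q(U)}` for all `q > 3`) holds if and only if for each
  `ε > 0` the bound `‖ext U e^{iP}‖_{L^3(B_D)}^3 ≤ C_ε D^ε` holds for these polynomials, and if and
  only if for all `q > 3` and `ε > 0` the global bound `‖ext U e^{iP}‖_{L^q(ℝ³)}^q ≤ C D^ε` holds for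
  them. The same is true with `3` replaced by any `q₀ ≥ 2`.
-/

open MeasureTheory Set Filter Metric
open scoped ENNReal NNReal Topology

namespace Pool.Agent.Results.MP_5ab805_an.SmallPolynomialPhases

/-- Euclidean space `ℝ^n` -/
abbrev E (n : ℕ) := EuclideanSpace ℝ (Fin n)

/-- the paraboloid `x ↦ (x_1, x_2, x_1^2 + x_2^2)` -/
noncomputable def Phi (x : E 2) : E 3 := !₂[x 0, x 1, x 0 ^ 2 + x 1 ^ 2]

/-- the Fourier extension operator of the paraboloid over `U` -/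
noncomputable def ext (U : Set (E 2)) (f : E 2 → ℂ) (ξ : E 3) : ℂ :=
  ∫ x in U, f x * Complex.exp (-(inner ℝ (Phi x) ξ : ℝ) * Complex.I)

/-- the estimate of Q1: `‖ext U f‖_q ≤ C ‖f‖_{L^q(U)}` -/
def Estimate (U : Set (E 2)) (q : ℝ) : Prop :=
  ∃ C : ℝ≥0, ∀ f : E 2 → ℂ, Measurable f → (∫⁻ x in U, ‖f x‖ₑ ^ q) ≠ ⊤ →
    (∫⁻ ξ, ‖ext U f ξ‖ₑ ^ q) ≤ C * ∫⁻ x in U, ‖f x‖ₑ ^ q

/-- `‖ext U f‖_{L^q(B_R)}^q ≤ C R^σ` for all `f` bounded by `1` and all `R ≥ 1` -/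
def LocalBound (U : Set (E 2)) (q σ : ℝ) : Prop :=
  ∃ C : ℝ≥0, ∀ f : E 2 → ℂ, Measurable f → (∀ x, ‖f x‖ ≤ 1) → ∀ R : ℝ, 1 ≤ R →
    (∫⁻ ξ in ball 0 R, ‖ext U f ξ‖ₑ ^ q) ≤ C * ENNReal.ofReal (R ^ σ)

/-- the value of a polynomial at a point of the plane -/
noncomputable def val (P : MvPolynomial (Fin 2) ℝ) (x : E 2) : ℝ :=
  MvPolynomial.eval (fun i => x i) P

/-- the polynomials of degree at most `D` which are bounded by `c` on `U` -/
def Small (U : Set (E 2)) (c : ℝ) (D : ℕ) (P : MvPolynomial (Fin 2) ℝ) : Prop :=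
  P.totalDegree ≤ D ∧ ∀ x ∈ U, |val P x| ≤ c

/-- `‖ext U e^{iP}‖_{L^q(B_D)}^q ≤ C D^σ` for all polynomials `P` of degree at most `D` with `|P| ≤ c`
on `U` -/
def PolyBound (U : Set (E 2)) (c q σ : ℝ) : Prop :=
  ∃ C : ℝ≥0, ∀ D : ℕ, 1 ≤ D → ∀ P, Small U c D P →
    (∫⁻ ξ in ball 0 (D : ℝ), ‖ext U (fun x => Complex.exp ((val P x : ℝ) * Complex.I)) ξ‖ₑ ^ q) ≤
      C * ENNReal.ofReal ((D : ℝ) ^ σ)

/-- `‖ext U e^{iP}‖_{L^q(ℝ³)}^q ≤ C D^σ` for all polynomials `P` of degree at most `D` with `|P| ≤ c`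
on `U` -/
def PolyBoundGlobal (U : Set (E 2)) (c q σ : ℝ) : Prop :=
  ∃ C : ℝ≥0, ∀ D : ℕ, 1 ≤ D → ∀ P, Small U c D P →
    (∫⁻ ξ, ‖ext U (fun x => Complex.exp ((val P x : ℝ) * Complex.I)) ξ‖ₑ ^ q) ≤
      C * ENNReal.ofReal ((D : ℝ) ^ σ)

open Pool.Agent.H222.ER

theorem ext_eq {U : Set (E 2)} (hU : MeasurableSet U) (f : E 2 → ℂ) :
    ext U f = Pool.Agent.H222.EX.TT (U.indicator f) := by
  funext ξ
  unfold ext Pool.Agent.H222.EX.TT
  rw [← integral_indicator hU]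
  refine integral_congr_ae (Eventually.of_forall fun x => ?_)
  by_cases hx : x ∈ U
  · simp only [indicator_of_mem hx]; rfl
  · simp only [indicator_of_notMem hx, zero_mul]

theorem val_eq (P : MvPolynomial (Fin 2) ℝ) : val P = ev P := rfl

theorem uni_eq (U : Set (E 2)) (P : MvPolynomial (Fin 2) ℝ) :
    (U.indicator fun x => Complex.exp ((val P x : ℝ) * Complex.I)) = uni U (ev P) 1 := by
  unfold uni
  simp only [one_mul]
  rfl

theorem ind_int {U : Set (E 2)} (hU : MeasurableSet U) (hUb : U ⊆ ball 0 (1 / 2)) {f : E 2 → ℂ}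
    (hf : Measurable f) (hf1 : ∀ x, ‖f x‖ ≤ 1) : Integrable (U.indicator f) :=
  integrable_of_bdd (hf.indicator hU) (fun x => (norm_indicator_le_norm_self _ _).trans (hf1 x))
    fun x hx => indicator_of_notMem (fun h => hx (hUb h)) _

theorem ph_meas (P : MvPolynomial (Fin 2) ℝ) :
    Measurable fun x => Complex.exp ((val P x : ℝ) * Complex.I) := by
  have := (ev_cont P).measurable
  rw [val_eq]
  fun_prop

theorem ph_le (P : MvPolynomial (Fin 2) ℝ) (x : E 2) :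
    ‖Complex.exp ((val P x : ℝ) * Complex.I)‖ ≤ 1 := by
  rw [Complex.norm_exp_ofReal_mul_I]

theorem PL_of_poly {U : Set (E 2)} (hU : MeasurableSet U) (hUb : U ⊆ ball 0 (1 / 2)) {c q τ : ℝ}
    (h : PolyBound U c q τ) : PL 2 U c q τ := by
  obtain ⟨c₀, hc0, hct, hc⟩ := NN3 (q := q)
  obtain ⟨C, hC⟩ := h
  have ht : (c₀⁻¹ * (C * ENNReal.ofReal (16 ^ τ)) : ℝ≥0∞) ≠ ⊤ :=
    ENNReal.mul_ne_top (ENNReal.inv_ne_top.2 hc0)
      (ENNReal.mul_ne_top ENNReal.coe_ne_top ENNReal.ofReal_ne_top)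
  refine ⟨(c₀⁻¹ * (C * ENNReal.ofReal (16 ^ τ)) : ℝ≥0∞).toNNReal, fun D hD P hP hPc => ?_⟩
  rw [ENNReal.coe_toNNReal ht]
  have hD1 : (1 : ℝ) ≤ D := by exact_mod_cast hD
  have h1 := hC (16 * D) (by omega) P ⟨hP.trans (by omega), hPc⟩
  rw [ext_eq hU, uni_eq] at h1
  have hint : Integrable (uni U (ev P) 1) := by
    rw [← uni_eq]; exact ind_int hU hUb (ph_meas P) (ph_le P)
  have h2 := (hc _ hint D).2
  have h3 : ball (0 : E 3) (15 * D + 1) ⊆ ball 0 ((16 * D : ℕ) : ℝ) := by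
    refine ball_subset_ball ?_
    push_cast
    linarith
  have h4 := h2.trans ((lintegral_mono_set h3).trans h1)
  calc NN q (BB 2 D) (uni U (ev P) 1) = c₀⁻¹ * (c₀ * NN q (BB 2 D) (uni U (ev P) 1)) := by
        rw [← mul_assoc, ENNReal.inv_mul_cancel hc0 hct, one_mul]
    _ ≤ c₀⁻¹ * (C * ENNReal.ofReal (((16 * D : ℕ) : ℝ) ^ τ)) := by gcongr
    _ = c₀⁻¹ * (C * ENNReal.ofReal (16 ^ τ)) * ENNReal.ofReal ((D : ℝ) ^ τ) := by
        push_cast
        rw [Real.mul_rpow (by norm_num) (by positivity), ENNReal.ofReal_mul (by positivity)]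
        ring

theorem local_of_Est {U : Set (E 2)} (hU : MeasurableSet U) (hUb : U ⊆ ball 0 (1 / 2)) {q σ : ℝ}
    (h : Pool.Agent.Helper184.PH.Est 2 q σ) : LocalBound U q σ := by
  obtain ⟨c₀, hc0, hct, hc⟩ := NN3 (q := q)
  obtain ⟨C, hC⟩ := h
  have ht : (c₀ * C : ℝ≥0∞) ≠ ⊤ := ENNReal.mul_ne_top hct ENNReal.coe_ne_top
  refine ⟨(c₀ * C : ℝ≥0∞).toNNReal, fun f hf hf1 R hR => ?_⟩
  rw [ENNReal.coe_toNNReal ht, ext_eq hU]
  refine ((hc _ (ind_int hU hUb hf hf1) R).1).trans ?_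
  have h1 := hC (U.indicator f) (hf.indicator hU)
    (fun x => (norm_indicator_le_norm_self _ _).trans (hf1 x)) R hR
  have h2 : (Pool.Agent.Helper184.PH.cube 2).indicator (U.indicator f) = U.indicator f := by
    funext x
    by_cases hx : x ∈ Pool.Agent.Helper184.PH.cube 2
    · rw [indicator_of_mem hx]
    · rw [indicator_of_notMem hx, indicator_of_notMem fun h => hx (ball_sub_cube ?_)]
      have := mem_ball_zero_iff.1 (hUb h)
      linarith
  unfold Pool.Agent.Helper184.PH.J at h1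
  rw [TP_eq, h2] at h1
  rw [mul_assoc]
  gcongr
  exact h1

theorem poly_of_local {U : Set (E 2)} (c : ℝ) {q σ : ℝ} (h : LocalBound U q σ) :
    PolyBound U c q σ := by
  obtain ⟨C, hC⟩ := h
  exact ⟨C, fun D hD P _ => hC _ (ph_meas P) (ph_le P) D (by exact_mod_cast hD)⟩

theorem bounded_of_estimate {U : Set (E 2)} (hUb : U ⊆ ball 0 (1 / 2)) {q : ℝ} (hq : 0 ≤ q)
    (h : Estimate U q) : ∃ C : ℝ≥0, ∀ f : E 2 → ℂ, Measurable f → (∀ x, ‖f x‖ ≤ 1) →
      (∫⁻ ξ, ‖ext U f ξ‖ₑ ^ q) ≤ C := by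
  obtain ⟨C, hC⟩ := h
  have hv : volume U ≠ ⊤ := ((measure_mono hUb).trans_lt measure_ball_lt_top).ne
  have ht : C * volume U ≠ ⊤ := ENNReal.mul_ne_top ENNReal.coe_ne_top hv
  refine ⟨(C * volume U).toNNReal, fun f hf hf1 => ?_⟩
  rw [ENNReal.coe_toNNReal ht]
  have h1 : (∫⁻ x in U, ‖f x‖ₑ ^ q) ≤ volume U := by
    rw [← setLIntegral_one]
    refine lintegral_mono fun x => ?_
    refine ENNReal.rpow_le_one ?_ hq
    rw [← ofReal_norm, ← ENNReal.ofReal_one]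
    exact ENNReal.ofReal_le_ofReal (hf1 x)
  refine (hC f hf (ne_top_of_le_ne_top hv h1)).trans ?_
  gcongr

/-- from a set with nonempty interior to a large disc -/
theorem LI_of_bounded {U : Set (E 2)} (hU : MeasurableSet U) (hUi : (interior U).Nonempty) {q : ℝ}
    (hq : 0 < q) (h : ∃ C : ℝ≥0, ∀ f : E 2 → ℂ, Measurable f → (∀ x, ‖f x‖ ≤ 1) →
      (∫⁻ ξ, ‖ext U f ξ‖ₑ ^ q) ≤ C) : Pool.Agent.H222.EX.LI (ball 0 2) q := by
  obtain ⟨x₀, hx₀⟩ := hUi
  obtain ⟨r, hr, hrU⟩ := Metric.isOpen_iff.1 isOpen_interior x₀ hx₀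
  have hrU' : ball x₀ r ⊆ U := hrU.trans interior_subset
  obtain ⟨C, hC⟩ := h
  refine Pool.Agent.H222.EX.LI_resc hq 0 hr two_pos subset_rfl ⟨C, fun f hf hf1 hf0 => ?_⟩
  have hfi := Pool.Agent.H222.EX.integrable_of_bdd hf hf1 hf0
  rw [← Pool.Agent.H222.EX.NN_shift hq x₀ hfi]
  have h1 := hC (fun x => f (x - x₀)) (hf.comp (measurable_sub_const _)) fun x => hf1 _
  rw [ext_eq hU] at h1
  have h2 : (U.indicator fun x => f (x - x₀)) = fun x => f (x - x₀) := by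
    funext x
    by_cases hx : x ∈ U
    · rw [indicator_of_mem hx]
    · rw [indicator_of_notMem hx, hf0 _ fun h => hx (hrU' ?_)]
      rw [mem_ball_zero_iff] at h
      rw [mem_ball, dist_eq_norm]
      exact h
  rw [h2] at h1
  exact h1

theorem Est_of_poly {U : Set (E 2)} (hU : MeasurableSet U) (hUb : U ⊆ ball 0 (1 / 2))
    (hUi : (interior U).Nonempty) {c : ℝ} (hc : 0 < c) {q σ : ℝ} (hq : 1 ≤ q) (hσ : 0 ≤ σ)
    (h : ∀ ε : ℝ, 0 < ε → PolyBound U c q (σ + ε)) :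
    ∀ ε : ℝ, 0 < ε → Pool.Agent.Helper184.PH.Est 2 q (σ + ε) :=
  (exponents hU hUb hUi hq hc hσ).2 fun ε hε => PL_of_poly hU hUb (h ε hε)

/-- **Small polynomial phases and the extension conjecture.** -/
theorem result (U : Set (E 2)) (hU : MeasurableSet U) (hUb : U ⊆ ball 0 (1 / 2))
    (hUi : (interior U).Nonempty) (c : ℝ) (hc : 0 < c) :
    -- equality of the growth exponents
    (∀ q : ℝ, 1 ≤ q → ∀ σ : ℝ, 0 ≤ σ →
      ((∀ ε : ℝ, 0 < ε → LocalBound U q (σ + ε)) ↔ ∀ ε : ℝ, 0 < ε → PolyBound U c q (σ + ε))) ∧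
    -- the conjecture, with any critical exponent
    (∀ q₀ : ℝ, 2 ≤ q₀ →
      ((∀ q : ℝ, q₀ < q → Estimate U q) ↔ ∀ ε : ℝ, 0 < ε → PolyBound U c q₀ ε) ∧
      ((∀ q : ℝ, q₀ < q → Estimate U q) ↔
        ∀ q : ℝ, q₀ < q → ∀ ε : ℝ, 0 < ε → PolyBoundGlobal U c q ε)) ∧
    -- Q1
    ((∀ q : ℝ, 3 < q → Estimate U q) ↔ ∀ ε : ℝ, 0 < ε → PolyBound U c 3 ε) ∧
    ((∀ q : ℝ, 3 < q → Estimate U q) ↔
      ∀ q : ℝ, 3 < q → ∀ ε : ℝ, 0 < ε → PolyBoundGlobal U c q ε) := by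
  have hA : ∀ q₀ : ℝ, 2 ≤ q₀ →
      ((∀ q : ℝ, q₀ < q → Estimate U q) ↔ ∀ ε : ℝ, 0 < ε → PolyBound U c q₀ ε) := by
    intro q₀ h0
    constructor
    · intro h ε hε
      refine poly_of_local c (local_of_Est hU hUb (Est_of_GE (by linarith) (fun s hs => ?_) hε))
      exact GE_of_LI (LI_of_bounded hU hUi (by linarith)
        (bounded_of_estimate hUb (by linarith) (h s hs)))
    · intro h q hq
      have h1 := Est_of_poly hU hUb hUi hc (q := q₀) (σ := 0) (by linarith) le_rfl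
        fun ε hε => by rw [zero_add]; exact h ε hε
      refine Pool.Agent.H222.EX.Est_of_LI h0 (fun s hs => ?_) hU hUb hq
      refine LI_of_GE (by linarith) (GE_of_eps (by norm_num) h0 (fun ε hε => ?_) hs)
      have h2 := h1 ε hε
      rwa [zero_add] at h2
  have hB : ∀ q₀ : ℝ, 2 ≤ q₀ → ((∀ q : ℝ, q₀ < q → Estimate U q) ↔
      ∀ q : ℝ, q₀ < q → ∀ ε : ℝ, 0 < ε → PolyBoundGlobal U c q ε) := by
    intro q₀ h0
    constructor
    · intro h q hq ε hε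
      obtain ⟨C, hC⟩ := bounded_of_estimate hUb (by linarith) (h q hq)
      refine ⟨C, fun D hD P _ => (hC _ (ph_meas P) (ph_le P)).trans ?_⟩
      have hD1 : (1 : ℝ) ≤ D := by exact_mod_cast hD
      calc (C : ℝ≥0∞) = C * 1 := (mul_one _).symm
        _ ≤ _ := by
          gcongr
          rw [← ENNReal.ofReal_one]
          exact ENNReal.ofReal_le_ofReal (Real.one_le_rpow hD1 hε.le)
    · intro h q hq
      obtain ⟨s, hs0, hsq⟩ := exists_between hq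
      refine (hA s (by linarith)).2 (fun ε hε => ?_) q hsq
      obtain ⟨C, hC⟩ := h s hs0 ε hε
      exact ⟨C, fun D hD P hP => (setLIntegral_le_lintegral _ _).trans (hC D hD P hP)⟩
  refine ⟨fun q hq σ hσ => ⟨fun h ε hε => poly_of_local c (h ε hε), fun h ε hε =>
    local_of_Est hU hUb (Est_of_poly hU hUb hUi hc hq hσ h ε hε)⟩,
    fun q₀ h0 => ⟨hA q₀ h0, hB q₀ h0⟩, hA 3 (by norm_num), hB 3 (by norm_num)⟩

end Pool.Agent.Results.MP_5ab805_an.SmallPolynomialPhases
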