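import Mathlib
import Pool.Agent.H243.RS.G13
set_option autoImplicit false

/-!
# The extension conjecture for the paraboloid in `ℝ³`: sparse angular spectrum

The angular component of frequency `k` of a function `f` on the plane about the centre `c` is
`f_k(x) = (2π)⁻¹ ∫_0^{2π} f(c + R_θ x) e^{-ikθ} dθ`, where `R_θ` is the rotation by `θ`; thus
`f(c + r e^{iθ}) = ∑_k f_k(r) e^{ikθ}`. The theorem is the estimate `∫ |Ef|^q ≤ C ∫ |f|^q` for all
`f ∈ L^q(U)` whose angular frequencies about some point lie in a sparse set `L` of integers: with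
`#(L ∩ [-N,N]) ≤ B N^β` and at most `B N^γ` representations of any integer as a sum of two elements
of `L ∩ [-N,N]`, it holds for `q > (6 - 2(β+γ))/(2 - (β+γ))`, if `β + γ < 1`. No regularity is
assumed, and the constant depends on `L` only through `β`, `γ` and `B`.

The second condition always holds with `γ = β`: for every `L` with `#(L ∩ [-N,N]) ≤ B N^β`,
`β < 1/2`, the estimate holds for `q > (3 - 2β)/(1 - β)`. If the counting function of `L` grows more
slowly than every power (for instance for lacunary `L`), it holds in the full range `q > 3`.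
-/

namespace Pool.Agent.Results.MP_5ab805_an.SparseAngularSpectrum

open MeasureTheory Set Complex
open scoped ENNReal NNReal RealInnerProductSpace

/-- The extension operator of the problem, `ξ = (y, t) ∈ ℝ² × ℝ`:
`Ef(ξ) = ∫_U exp(-i(⟨x,y⟩ + |x|² t)) f(x) dx`. -/
noncomputable def ext (U : Set (EuclideanSpace ℝ (Fin 2))) (f : EuclideanSpace ℝ (Fin 2) → ℂ)
    (ξ : EuclideanSpace ℝ (Fin 2) × ℝ) : ℂ :=
  ∫ x in U, cexp (-((⟪x, ξ.1⟫ + ‖x‖ ^ 2 * ξ.2 : ℝ) : ℂ) * I) * f x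

/-- The rotation of the plane by the angle `θ`. -/
noncomputable def rotation (θ : ℝ) (x : EuclideanSpace ℝ (Fin 2)) : EuclideanSpace ℝ (Fin 2) :=
  !₂[x 0 * Real.cos θ - x 1 * Real.sin θ, x 0 * Real.sin θ + x 1 * Real.cos θ]

/-- The angular component of frequency `k` of `f` about `c`. -/
noncomputable def component (c : EuclideanSpace ℝ (Fin 2)) (k : ℤ)
    (f : EuclideanSpace ℝ (Fin 2) → ℂ) (x : EuclideanSpace ℝ (Fin 2)) : ℂ :=
  (((2 * Real.pi)⁻¹ : ℝ) : ℂ) * ∫ θ in (0 : ℝ)..(2 * Real.pi),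
    f (c + rotation θ x) * cexp (-((k * θ : ℝ) : ℂ) * I)

/-- `L` has at most `B N^β` elements in `[-N, N]`, and every integer `m` is a sum `k + (m - k)` of
two of them in at most `B N^γ` ways. -/
def Sparse (β γ B : ℝ) (L : Set ℤ) : Prop := ∀ N : ℕ, 1 ≤ N →
  ({k : ℤ | k ∈ L ∧ |k| ≤ N}.ncard : ℝ) ≤ B * (N : ℝ) ^ β ∧
  ∀ m : ℤ, ({k : ℤ | k ∈ L ∧ m - k ∈ L ∧ |k| ≤ N ∧ |m - k| ≤ N}.ncard : ℝ) ≤ B * (N : ℝ) ^ γ

/-- The extension estimate for functions on `U` supported in the ball of radius `R` about `c` whose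
angular components about `c` vanish for the frequencies outside `L`. -/
theorem result (β γ B q : ℝ) (hβ : 0 ≤ β) (hγ : 0 ≤ γ) (hs : β + γ < 1)
    (hq : (6 - 2 * (β + γ)) / (2 - (β + γ)) < q) :
    ∃ C : ℝ≥0, ∀ L : Set ℤ, Sparse β γ B L →
      ∀ (U : Set (EuclideanSpace ℝ (Fin 2))) (f : EuclideanSpace ℝ (Fin 2) → ℂ)
        (c : EuclideanSpace ℝ (Fin 2)) (R : ℝ), Measurable f → 0 < R →
      (∀ x, x ∉ U → f x = 0) → (∀ x, R < ‖x - c‖ → f x = 0) →
      (∀ k, k ∉ L → component c k f =ᵐ[volume] 0) →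
      ∫⁻ ξ : EuclideanSpace ℝ (Fin 2) × ℝ, ‖ext U f ξ‖ₑ ^ q ≤
        C * ENNReal.ofReal (R ^ (2 * q - 6)) * ∫⁻ x, ‖f x‖ₑ ^ q := by
  obtain ⟨K, hK, h⟩ := Pool.Agent.H243.RS.main_S β γ B q hβ hγ hs hq
  refine ⟨K.toNNReal, ?_⟩
  intro L hL U f c R hf hR hU h0 hsp
  have h1 := h L hL c f hf (fun k hk => hsp k hk) R hR h0
  have h2 : ∀ ξ : EuclideanSpace ℝ (Fin 2) × ℝ, ext U f ξ =
      Pool.Agent.H243.RP.X f ξ.1 ξ.2 := by
    intro ξ
    unfold ext Pool.Agent.H243.RP.X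
    rw [setIntegral_eq_integral_of_forall_compl_eq_zero (fun x hx => by rw [hU x hx, mul_zero])]
    simp only [real_inner_comm]
  simp only [h2]
  rw [Measure.volume_eq_prod, lintegral_prod _
    ((Pool.Agent.H243.RP.X_meas hf).enorm.pow_const q).aemeasurable]
  refine h1.trans (le_of_eq ?_)
  rw [ENNReal.ofReal_mul hK.le]
  rfl

end Pool.Agent.Results.MP_5ab805_an.SparseAngularSpectrum
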